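import Pool.Agent.MP_c00c90_lc.NI.Hermite

/-! The analytic core: sums of `w_i * sqrt (X^2 + q_i^2)` that are very close to an integer. -/

namespace NI

open Finset Filter Topology Asymptotics

lemma taylor (a : ℝ) (n : ℕ) :
    (fun y : ℝ => (1 + y) ^ a - ∑ j ∈ range n, Ring.choose a j * y ^ j) =O[𝓝 0]
      fun y => y ^ n := by
  have h := (Real.one_add_rpow_hasFPowerSeriesAt_zero (a := a)).isBigO_sub_partialSum_pow n
  have h2 : (fun y : ℝ => ‖y‖ ^ n) =O[𝓝 0] fun y => y ^ n :=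
    IsBigO.of_bound 1 (Eventually.of_forall fun y => by simp)
  refine (h.trans h2).congr_left fun y => ?_
  simp [FormalMultilinearSeries.partialSum, binomialSeries, mul_comm]

lemma taylor_scaled (a d : ℝ) (n : ℕ) :
    (fun s : ℝ => (1 + d * s) ^ a - ∑ j ∈ range n, Ring.choose a j * (d * s) ^ j) =O[𝓝 0]
      fun s => s ^ n := by
  have ht : Tendsto (fun s : ℝ => d * s) (𝓝 0) (𝓝 0) := by
    simpa using (tendsto_id (α := ℝ) (x := 𝓝 0)).const_mul d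
  refine ((taylor a n).comp_tendsto ht).trans ?_
  refine IsBigO.of_bound (|d| ^ n) (Eventually.of_forall fun y => ?_)
  simp [mul_pow]

lemma choose_shift (j : ℕ) :
    ((j : ℝ) + 1) * Ring.choose (3 / 2 : ℝ) (j + 1) = 3 / 2 * Ring.choose (1 / 2 : ℝ) j := by
  have h := Ring.choose_smul_choose (3 / 2 : ℝ) (n := j + 1) (k := 1) (by omega)
  rw [Ring.choose_one_right, Nat.choose_one_right, nsmul_eq_mul, Nat.add_sub_cancel] at h
  push_cast at h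
  rw [h]; norm_num

lemma choose_rec (j : ℕ) :
    ((j : ℝ) + 1) * Ring.choose (3 / 2 : ℝ) (j + 1) = Ring.choose (3 / 2 : ℝ) j * (3 / 2 - j) := by
  have h := Ring.choose_smul_choose (3 / 2 : ℝ) (n := j + 1) (k := j) (by omega)
  rw [Nat.choose_succ_self_right, nsmul_eq_mul, show j + 1 - j = 1 by omega,
    Ring.choose_one_right] at h
  push_cast at h
  exact h

lemma choose_sign (j : ℕ) : 0 < (-1 : ℝ) ^ j * Ring.choose (3 / 2 : ℝ) (j + 2) := by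
  induction j with
  | zero =>
    have h := choose_rec 1
    rw [Ring.choose_one_right] at h
    norm_num at h ⊢
    linarith
  | succ j ih =>
    have h := choose_rec (j + 2)
    have hj : (0 : ℝ) ≤ j := Nat.cast_nonneg j
    push_cast at h
    have h2 : ((j : ℝ) + 2 + 1) * ((-1 : ℝ) ^ (j + 1) * Ring.choose (3 / 2 : ℝ) (j + 1 + 2))
        = ((-1 : ℝ) ^ j * Ring.choose (3 / 2 : ℝ) (j + 2)) * (j + 1 / 2) := by
      rw [show j + 1 + 2 = j + 2 + 1 by omega, pow_succ]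
      linear_combination (-(-1 : ℝ) ^ j) * h
    have h3 : 0 < ((j : ℝ) + 2 + 1) * ((-1 : ℝ) ^ (j + 1) * Ring.choose (3 / 2 : ℝ) (j + 1 + 2)) := by
      rw [h2]; positivity
    exact (mul_pos_iff_of_pos_left (by positivity)).1 h3

lemma term_exp (A B d : ℝ) (N : ℕ) :
    (fun s : ℝ => (B * (3 / 2 * s * (1 + d * s) ^ (1 / 2 : ℝ)) - A * (1 + d * s) ^ (3 / 2 : ℝ))
      - ∑ j ∈ range (N + 1), Ring.choose (3 / 2 : ℝ) j * s ^ j * (B * j * d ^ (j - 1) - A * d ^ j))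
      =O[𝓝 0] fun s => s ^ (N + 1) := by
  have h1 := ((isBigO_refl (fun s : ℝ => s) (𝓝 0)).mul (taylor_scaled (1 / 2) d N)).const_mul_left
    (B * (3 / 2))
  have h2 := (taylor_scaled (3 / 2) d (N + 1)).const_mul_left A
  have h3 := (h1.congr_right (g₂ := fun s : ℝ => s ^ (N + 1)) fun s => by ring).sub h2
  refine h3.congr_left fun s => ?_
  have e1 : ∑ j ∈ range (N + 1), Ring.choose (3 / 2 : ℝ) j * s ^ j * (B * j * d ^ (j - 1))
      = B * (3 / 2) * (s * ∑ j ∈ range N, Ring.choose (1 / 2 : ℝ) j * (d * s) ^ j) := by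
    rw [sum_range_succ', mul_sum, mul_sum]
    simp only [Nat.cast_zero, mul_zero, zero_mul, add_zero, Nat.add_sub_cancel]
    refine sum_congr rfl fun j _ => ?_
    have := choose_shift j
    push_cast
    linear_combination (B * d ^ j * s ^ (j + 1)) * this
  have e2 : ∑ j ∈ range (N + 1), Ring.choose (3 / 2 : ℝ) j * s ^ j * (A * d ^ j)
      = A * ∑ j ∈ range (N + 1), Ring.choose (3 / 2 : ℝ) j * (d * s) ^ j := by
    rw [mul_sum]
    exact sum_congr rfl fun j _ => by ring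
  simp only [mul_sub (Ring.choose (3 / 2 : ℝ) _ * s ^ _), sum_sub_distrib, e1, e2]
  ring

lemma scale_term (A B d X : ℝ) (hd : 0 ≤ d) (hX : 0 < X) :
    -2 * X ^ 3 * (B * (3 / 2 * (1 / X ^ 2) * (1 + d * (1 / X ^ 2)) ^ (1 / 2 : ℝ))
      - A * (1 + d * (1 / X ^ 2)) ^ (3 / 2 : ℝ))
      = (2 * A * X ^ 2 + 2 * A * d - 3 * B) * √(X ^ 2 + d) := by
  have h0 : 0 < 1 + d * (1 / X ^ 2) := by positivity
  have h1 : (1 + d * (1 / X ^ 2)) ^ (1 / 2 : ℝ) = √(X ^ 2 + d) / X := by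
    rw [← Real.sqrt_eq_rpow, show 1 + d * (1 / X ^ 2) = (X ^ 2 + d) / X ^ 2 by field_simp,
      Real.sqrt_div (by positivity), Real.sqrt_sq hX.le]
  have h2 : (1 + d * (1 / X ^ 2)) ^ (3 / 2 : ℝ) = (1 + d * (1 / X ^ 2)) * (√(X ^ 2 + d) / X) := by
    rw [← h1, show (3 / 2 : ℝ) = 1 + 1 / 2 by norm_num, Real.rpow_add h0, Real.rpow_one]
  rw [h1, h2]
  field_simp
  ring

theorem core (k : ℕ) (hk : 1 ≤ k) (e : ℕ) (he : e = 1 ∨ e = 2) :
    ∃ C : ℕ, 0 < C ∧ ∀ᶠ X : ℕ in atTop, ∃ (w : Fin k → ℕ) (L : ℤ),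
      (∀ i, 0 < w i ∧ w i ≤ C * X ^ 2) ∧
      0 < (-1 : ℝ) ^ e * (∑ i, (w i : ℝ) * √((X : ℝ) ^ 2 + (qq k i : ℝ) ^ 2) - L) ∧
      (-1 : ℝ) ^ e * (∑ i, (w i : ℝ) * √((X : ℝ) ^ 2 + (qq k i : ℝ) ^ 2) - L)
        * (X : ℝ) ^ (4 * k + 2 * e - 5) ≤ C := by
  obtain ⟨A, B, M, hM, hA, hmom⟩ := weightsZ hk e (by omega)
  obtain ⟨n, hn⟩ : ∃ n, 2 * k - 1 + e = n + 2 := ⟨2 * k - 1 + e - 2, by omega⟩
  rw [hn] at hmom
  set d : Fin k → ℝ := fun i => (qq k i : ℝ) ^ 2 with hd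
  set c : ℝ := Ring.choose (3 / 2 : ℝ) (n + 2) with hc
  have hsum := IsBigO.sum (s := univ) fun i _ => term_exp (A i) (B i) (d i) (n + 2)
  have hR : (fun s : ℝ => ∑ i, ((B i : ℝ) * (3 / 2 * s * (1 + d i * s) ^ (1 / 2 : ℝ))
        - A i * (1 + d i * s) ^ (3 / 2 : ℝ))
      - (-(∑ i, (A i : ℝ)) + 3 / 2 * s * ∑ i, ((B i : ℝ) - A i * d i) + c * s ^ (n + 2) * M))
      =O[𝓝 0] fun s => s ^ (n + 2 + 1) := by
    refine hsum.congr_left fun s => ?_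
    rw [Finset.sum_apply, sum_sub_distrib, sum_comm]
    congr 1
    simp only [← mul_sum]
    rw [sum_range_succ, sum_range_succ', sum_range_succ', hmom (n + 2) (by omega) le_rfl,
      sum_eq_zero fun j hj => by
        rw [hmom (j + 1 + 1) (by omega) (by have := mem_range.1 hj; omega),
          if_neg (by have := mem_range.1 hj; omega), mul_zero]]
    simp [hc]
    ring
  obtain ⟨K, hK0, hK⟩ := hR.exists_pos
  have ht : Tendsto (fun X : ℕ => 1 / (X : ℝ) ^ 2) atTop (𝓝 0) := by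
    simp only [one_div]
    exact tendsto_inv_atTop_zero.comp
      ((tendsto_pow_atTop two_ne_zero).comp tendsto_natCast_atTop_atTop)
  have hev := ht.eventually hK.bound
  have hsign : 0 < (-1 : ℝ) ^ e * (-c) := by
    have h := choose_sign n
    have h2 : (-1 : ℝ) ^ n = -(-1 : ℝ) ^ e := by
      have h3 : n + 2 + 1 = 2 * k + e := by omega
      have h4 : (-1 : ℝ) ^ (n + 2 + 1) = (-1 : ℝ) ^ (2 * k + e) := by rw [h3]
      rw [pow_add, pow_add, pow_add, pow_mul] at h4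
      norm_num at h4
      linarith
    rw [h2] at h
    linarith
  set γ : ℝ := (-1 : ℝ) ^ e * (-c) * M with hγ
  have hγ0 : 0 < γ := mul_pos hsign hM
  obtain ⟨C1, hC1⟩ := exists_nat_ge (2 * γ + 2 * K)
  set T : ℕ := ∑ i, (2 * A i * (qq k i : ℤ) ^ 2 - 3 * B i).natAbs with hT
  set U : ℕ := ∑ i, (2 * A i).natAbs with hU
  refine ⟨C1 + T + U + 1, by omega, ?_⟩
  have hX1 : ∀ᶠ X : ℕ in atTop, K / γ < (X : ℝ) :=
    tendsto_natCast_atTop_atTop.eventually_gt_atTop _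
  filter_upwards [hev, hX1, eventually_gt_atTop T] with X h1 h2 h3
  have hX : (0 : ℝ) < X := by exact_mod_cast (by omega : 0 < X)
  have hX' : (1 : ℝ) ≤ X := by exact_mod_cast (by omega : 1 ≤ X)
  have hw : ∀ i, 0 < 2 * A i * (X : ℤ) ^ 2 + (2 * A i * (qq k i : ℤ) ^ 2 - 3 * B i) ∧
      2 * A i * (X : ℤ) ^ 2 + (2 * A i * (qq k i : ℤ) ^ 2 - 3 * B i) ≤ (T + U) * (X : ℤ) ^ 2 := by
    intro i
    have a1 : (2 * A i * (qq k i : ℤ) ^ 2 - 3 * B i).natAbs ≤ T :=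
      single_le_sum (f := fun i => (2 * A i * (qq k i : ℤ) ^ 2 - 3 * B i).natAbs)
        (fun _ _ => Nat.zero_le _) (mem_univ i)
    have a2 : (2 * A i).natAbs ≤ U :=
      single_le_sum (f := fun i => (2 * A i).natAbs) (fun _ _ => Nat.zero_le _) (mem_univ i)
    have a3 := hA i
    have a4 : (T : ℤ) < X := by exact_mod_cast h3
    have a5 : (0 : ℤ) ≤ T := by positivity
    generalize 2 * A i * (qq k i : ℤ) ^ 2 - 3 * B i = t at a1 ⊢
    have a6 : -(T : ℤ) ≤ t := by omega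
    have a7 : t ≤ T := by omega
    have a8 : 2 * A i ≤ U := by omega
    have a9 : (X : ℤ) ≤ (X : ℤ) ^ 2 := by nlinarith
    have a10 : (1 : ℤ) ≤ (X : ℤ) ^ 2 := by nlinarith
    constructor <;> nlinarith
  set w : Fin k → ℕ :=
    fun i => (2 * A i * (X : ℤ) ^ 2 + (2 * A i * (qq k i : ℤ) ^ 2 - 3 * B i)).toNat with hwdef
  have hwz : ∀ i, (w i : ℤ) = 2 * A i * (X : ℤ) ^ 2 + (2 * A i * (qq k i : ℤ) ^ 2 - 3 * B i) :=
    fun i => Int.toNat_of_nonneg (hw i).1.le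
  have hwr : ∀ i, (w i : ℝ) = 2 * A i * (X : ℝ) ^ 2 + 2 * A i * d i - 3 * B i := fun i => by
    have := congrArg (fun z : ℤ => (z : ℝ)) (hwz i)
    push_cast at this
    rw [this]; simp only [hd]; ring
  set R : ℝ := ∑ i, ((B i : ℝ) * (3 / 2 * (1 / (X : ℝ) ^ 2)
        * (1 + d i * (1 / (X : ℝ) ^ 2)) ^ (1 / 2 : ℝ))
        - A i * (1 + d i * (1 / (X : ℝ) ^ 2)) ^ (3 / 2 : ℝ))
      - (-(∑ i, (A i : ℝ)) + 3 / 2 * (1 / (X : ℝ) ^ 2) * ∑ i, ((B i : ℝ) - A i * d i)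
        + c * (1 / (X : ℝ) ^ 2) ^ (n + 2) * M) with hRdef
  have hexp : 4 * k + 2 * e - 5 = 2 * n + 1 := by omega
  have key : (-1 : ℝ) ^ e * (∑ i, (w i : ℝ) * √((X : ℝ) ^ 2 + (qq k i : ℝ) ^ 2)
      - ((2 * (∑ i, A i) * (X : ℤ) ^ 3 - 3 * (∑ i, (B i - A i * (qq k i : ℤ) ^ 2)) * X : ℤ) : ℝ))
      * (X : ℝ) ^ (2 * n + 1) = 2 * γ - 2 * ((-1 : ℝ) ^ e * (R * (X : ℝ) ^ (2 * n + 4))) := by
    have s1 : ∑ i, (w i : ℝ) * √((X : ℝ) ^ 2 + (qq k i : ℝ) ^ 2)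
        = -2 * (X : ℝ) ^ 3 * ∑ i, ((B i : ℝ) * (3 / 2 * (1 / (X : ℝ) ^ 2)
        * (1 + d i * (1 / (X : ℝ) ^ 2)) ^ (1 / 2 : ℝ))
        - A i * (1 + d i * (1 / (X : ℝ) ^ 2)) ^ (3 / 2 : ℝ)) := by
      rw [mul_sum]
      refine sum_congr rfl fun i _ => ?_
      rw [scale_term _ _ _ _ (by simp only [hd]; positivity) hX, hwr]
    rw [s1, hRdef, hγ]
    push_cast
    simp only [hd]
    generalize ∑ i, ((B i : ℝ) * (3 / 2 * (1 / (X : ℝ) ^ 2)
        * (1 + (qq k i : ℝ) ^ 2 * (1 / (X : ℝ) ^ 2)) ^ (1 / 2 : ℝ))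
        - A i * (1 + (qq k i : ℝ) ^ 2 * (1 / (X : ℝ) ^ 2)) ^ (3 / 2 : ℝ)) = S
    rw [one_div_pow]
    field_simp
    ring
  have hRb : |(-1 : ℝ) ^ e * (R * (X : ℝ) ^ (2 * n + 4))| ≤ K / (X : ℝ) ^ 2 := by
    rw [abs_mul, abs_mul, abs_pow, abs_neg, abs_one, one_pow, one_mul,
      abs_of_pos (a := (X : ℝ) ^ (2 * n + 4)) (by positivity)]
    rw [Real.norm_eq_abs, Real.norm_eq_abs,
      abs_of_pos (a := (1 / (X : ℝ) ^ 2) ^ (n + 2 + 1)) (by positivity)] at h1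
    calc |R| * (X : ℝ) ^ (2 * n + 4)
        ≤ K * (1 / (X : ℝ) ^ 2) ^ (n + 2 + 1) * (X : ℝ) ^ (2 * n + 4) := by gcongr
      _ = K / (X : ℝ) ^ 2 := by rw [one_div_pow]; field_simp; ring
  have hb1 : K / (X : ℝ) ^ 2 < γ := by
    rw [div_lt_iff₀ hγ0] at h2
    rw [div_lt_iff₀ (by positivity)]
    have : (X : ℝ) ≤ (X : ℝ) ^ 2 := by nlinarith
    nlinarith
  have hb2 : K / (X : ℝ) ^ 2 ≤ K := div_le_self hK0.le (by nlinarith)
  obtain ⟨r1, r2⟩ := abs_le.1 hRb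
  refine ⟨w, 2 * (∑ i, A i) * (X : ℤ) ^ 3 - 3 * (∑ i, (B i - A i * (qq k i : ℤ) ^ 2)) * X,
    fun i => ⟨?_, ?_⟩, ?_, ?_⟩
  · have := (hw i).1
    rw [← hwz] at this
    exact_mod_cast this
  · have := (hw i).2
    rw [← hwz] at this
    have h5 : w i ≤ (T + U) * X ^ 2 := by exact_mod_cast this
    exact h5.trans (Nat.mul_le_mul_right _ (by omega))
  · refine (mul_pos_iff_of_pos_right (b := (X : ℝ) ^ (2 * n + 1)) (by positivity)).1 ?_
    rw [key]; linarith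
  · rw [hexp, key]
    push_cast
    have : (0 : ℝ) ≤ T := by positivity
    have : (0 : ℝ) ≤ U := by positivity
    linarith

end NI
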