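import Mathlib

/-! Hermite divided difference on doubled nodes, and the integer weights used for near-integer
sums of square roots. -/

namespace NI

open Polynomial Finset

variable {k : ℕ}

/-- product of the other linear factors -/
noncomputable def oth (d : Fin k → ℚ) (i : Fin k) : ℚ[X] := ∏ j ∈ univ.erase i, (X - C (d j))

lemma oth_monic (d : Fin k → ℚ) (i : Fin k) : (oth d i).Monic :=
  monic_prod_of_monic _ _ fun _ _ => monic_X_sub_C _

lemma oth_natDegree (d : Fin k → ℚ) (i : Fin k) : (oth d i).natDegree = k - 1 := by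
  unfold oth
  rw [natDegree_prod_of_monic _ _ fun _ _ => monic_X_sub_C _]
  simp [card_erase_of_mem]

lemma oth_eval_ne (d : Fin k → ℚ) (hd : Function.Injective d) (i : Fin k) :
    (oth d i).eval (d i) ≠ 0 := by
  unfold oth
  rw [eval_prod]
  refine prod_ne_zero_iff.2 fun j hj => ?_
  simp only [eval_sub, eval_X, eval_C]
  exact sub_ne_zero.2 fun h => (mem_erase.1 hj).1 (hd h).symm

lemma oth_eval_zero (d : Fin k → ℚ) {i j : Fin k} (h : j ≠ i) : (oth d i).eval (d j) = 0 := by
  unfold oth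
  rw [eval_prod]
  exact prod_eq_zero (mem_erase.2 ⟨h, mem_univ _⟩) (by simp)

lemma logder {ι : Type*} [DecidableEq ι] (s : Finset ι) (d : ι → ℚ) (x : ℚ)
    (hx : ∀ j ∈ s, x - d j ≠ 0) :
    (derivative (∏ j ∈ s, (X - C (d j)))).eval x
      = (∏ j ∈ s, (X - C (d j))).eval x * ∑ j ∈ s, 1 / (x - d j) := by
  induction s using Finset.induction_on with
  | empty => simp
  | insert a s ha ih =>
    have h1 := hx a (mem_insert_self _ _)
    rw [prod_insert ha, sum_insert ha, derivative_mul, eval_add, eval_mul, eval_mul,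
      ih fun j hj => hx j (mem_insert_of_mem hj)]
    simp only [derivative_sub, derivative_X, derivative_C, sub_zero, eval_one, eval_mul, eval_sub,
      eval_X, eval_C]
    field_simp

/-- logarithmic derivative at the node -/
def sig (d : Fin k → ℚ) (i : Fin k) : ℚ := ∑ j ∈ univ.erase i, 1 / (d i - d j)

lemma oth_der (d : Fin k → ℚ) (hd : Function.Injective d) (i : Fin k) :
    (derivative (oth d i)).eval (d i) = (oth d i).eval (d i) * sig d i :=
  logder _ d _ fun _ hj => sub_ne_zero.2 fun h => (mem_erase.1 hj).1 (hd h).symm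

theorem hermite (hk : 1 ≤ k) (d : Fin k → ℚ) (hd : Function.Injective d) (P : ℚ[X])
    (hP : P.natDegree ≤ 2 * k - 1) :
    ∑ i, ((derivative P).eval (d i) - 2 * sig d i * P.eval (d i)) / ((oth d i).eval (d i)) ^ 2
      = P.coeff (2 * k - 1) := by
  set u : Fin k → ℚ := fun i => P.eval (d i) / ((oth d i).eval (d i)) ^ 2 with hu
  set v : Fin k → ℚ := fun i =>
    ((derivative P).eval (d i) - 2 * sig d i * P.eval (d i)) / ((oth d i).eval (d i)) ^ 2 with hv
  set H : ℚ[X] := ∑ i, (C (u i) * oth d i ^ 2 + C (v i) * ((X - C (d i)) * oth d i ^ 2)) with hH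
  have hm : ∀ i, ((X - C (d i)) * oth d i ^ 2).Monic := fun i =>
    (monic_X_sub_C _).mul ((oth_monic d i).pow 2)
  have hdeg2 : ∀ i, (oth d i ^ 2).natDegree = 2 * k - 2 := fun i => by
    rw [(oth_monic d i).natDegree_pow, oth_natDegree]; omega
  have hdeg : ∀ i, ((X - C (d i)) * oth d i ^ 2).natDegree = 2 * k - 1 := fun i => by
    rw [(monic_X_sub_C _).natDegree_mul ((oth_monic d i).pow 2), hdeg2, natDegree_X_sub_C]; omega
  have hHdeg : H.natDegree ≤ 2 * k - 1 := by
    refine natDegree_sum_le_of_forall_le _ _ fun i _ => (natDegree_add_le _ _).trans (max_le ?_ ?_)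
    · exact (natDegree_C_mul_le _ _).trans (by rw [hdeg2]; omega)
    · exact (natDegree_C_mul_le _ _).trans (by rw [hdeg])
  have hHc : H.coeff (2 * k - 1) = ∑ i, v i := by
    rw [hH, finsetSum_coeff]
    refine sum_congr rfl fun i _ => ?_
    rw [coeff_add, coeff_C_mul, coeff_C_mul,
      coeff_eq_zero_of_natDegree_lt (p := oth d i ^ 2) (by rw [hdeg2]; omega)]
    have := (hm i).coeff_natDegree
    rw [hdeg] at this
    rw [this]; ring
  have he : ∀ j, H.eval (d j) = P.eval (d j) := fun j => by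
    rw [hH, eval_finsetSum, sum_eq_single j]
    · have := oth_eval_ne d hd j
      simp only [eval_add, eval_mul, eval_C, eval_pow, eval_sub, eval_X, sub_self, zero_mul,
        mul_zero, add_zero, hu]
      field_simp
    · intro i _ hij
      simp [oth_eval_zero d (Ne.symm hij)]
    · simp
  have he' : ∀ j, (derivative H).eval (d j) = (derivative P).eval (d j) := fun j => by
    rw [hH, derivative_sum, eval_finsetSum, sum_eq_single j]
    · have := oth_eval_ne d hd j
      simp only [derivative_add, derivative_mul, derivative_C, zero_mul, zero_add, derivative_sub,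
        derivative_X, sub_zero, one_mul, derivative_pow, eval_add, eval_mul, eval_C, eval_pow,
        eval_sub, eval_X, sub_self, add_zero, oth_der d hd j, hu, hv]
      norm_num
      field_simp
      ring
    · intro i _ hij
      simp [derivative_pow, oth_eval_zero d (Ne.symm hij)]
    · simp
  have hz : P - H = 0 := by
    by_contra hne
    have hmult : ∀ j, 2 ≤ (P - H).roots.count (d j) := fun j => by
      rw [count_roots]
      refine (one_lt_rootMultiplicity_iff_isRoot hne).2 ⟨?_, ?_⟩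
      · simp [IsRoot, he j]
      · simp [IsRoot, he' j]
    have h1 : ∑ a ∈ univ.image d, (P - H).roots.count a ≤ (P - H).roots.card := by
      classical
      calc ∑ a ∈ univ.image d, (P - H).roots.count a
          ≤ ∑ a ∈ (P - H).roots.toFinset, (P - H).roots.count a := by
            refine sum_le_sum_of_subset fun a ha => ?_
            obtain ⟨j, -, rfl⟩ := mem_image.1 ha
            exact Multiset.mem_toFinset.2 (Multiset.count_pos.1 (by have := hmult j; omega))
        _ = _ := Multiset.toFinset_sum_count_eq _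
    rw [sum_image fun a _ b _ h => hd h] at h1
    have h2 : 2 * k ≤ ∑ j, (P - H).roots.count (d j) := by
      calc 2 * k = ∑ _j : Fin k, 2 := by simp [mul_comm]
        _ ≤ _ := sum_le_sum fun j _ => hmult j
    have h3 := card_roots' (P - H)
    have h4 : (P - H).natDegree ≤ 2 * k - 1 := (natDegree_sub_le _ _).trans (max_le hP hHdeg)
    omega
  rw [sub_eq_zero.1 hz, hHc]

/-- the second coordinates -/
def qq (k : ℕ) (i : ℕ) : ℕ := (2 * k + 1) ^ i

lemma qq_pos (k i : ℕ) : 0 < qq k i := by unfold qq; positivity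

lemma qq_mono (k : ℕ) : Monotone (qq k) := fun _ _ h => Nat.pow_le_pow_right (by omega) h

lemma sig_pos (hk : 1 ≤ k) (i : Fin k) :
    0 < 1 / ((qq k i : ℚ) ^ 2) + 2 * sig (fun j : Fin k => (qq k j : ℚ) ^ 2) i := by
  have hq : (0 : ℚ) < (qq k i : ℚ) ^ 2 := by have := qq_pos k i; positivity
  have hk' : (1 : ℚ) ≤ k := by exact_mod_cast hk
  have hterm : ∀ j ∈ univ.erase i,
      -(1 / (4 * k * (qq k i : ℚ) ^ 2)) ≤ 1 / ((qq k i : ℚ) ^ 2 - (qq k j : ℚ) ^ 2) := by
    intro j hj
    rcases le_or_gt j i with h | h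
    · have h1 : (qq k j : ℚ) ≤ qq k i := by exact_mod_cast qq_mono k h
      have h2 : (qq k j : ℚ) ^ 2 ≤ (qq k i : ℚ) ^ 2 := by gcongr
      have h3 : 0 ≤ 1 / ((qq k i : ℚ) ^ 2 - (qq k j : ℚ) ^ 2) := div_nonneg one_pos.le (by linarith)
      have h4 : 0 ≤ 1 / (4 * k * (qq k i : ℚ) ^ 2) := by positivity
      linarith
    · have h1 : ((2 * k + 1 : ℚ)) * qq k i ≤ qq k j := by
        have : qq k (i + 1) ≤ qq k j := qq_mono k h
        have h2 : qq k (i + 1) = (2 * k + 1) * qq k i := by unfold qq; ring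
        rw [h2] at this
        exact_mod_cast this
      have h0 : (0 : ℚ) ≤ (2 * k + 1 : ℚ) * qq k i := by positivity
      have h2 : ((2 * k + 1 : ℚ) * qq k i) ^ 2 ≤ (qq k j : ℚ) ^ 2 := by gcongr
      have h3 : 4 * k * (qq k i : ℚ) ^ 2 ≤ (qq k j : ℚ) ^ 2 - (qq k i : ℚ) ^ 2 := by
        have : 0 ≤ 4 * (k : ℚ) ^ 2 * (qq k i : ℚ) ^ 2 := by positivity
        nlinarith
      have h4 : (0 : ℚ) < 4 * k * (qq k i : ℚ) ^ 2 := by positivity
      have h5 := one_div_le_one_div_of_le h4 h3
      rw [show (qq k i : ℚ) ^ 2 - (qq k j : ℚ) ^ 2 = -((qq k j : ℚ) ^ 2 - (qq k i : ℚ) ^ 2) by ring,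
        div_neg]
      linarith
  have hs := card_nsmul_le_sum _ _ _ hterm
  rw [card_erase_of_mem (mem_univ _), card_univ, Fintype.card_fin, nsmul_eq_mul,
    Nat.cast_sub hk] at hs
  have e1 : 1 / (qq k i : ℚ) ^ 2 = 4 * k * (1 / (4 * k * (qq k i : ℚ) ^ 2)) := by field_simp
  have h4 : 0 < 1 / (4 * k * (qq k i : ℚ) ^ 2) := by positivity
  unfold sig
  rw [e1]
  push_cast at hs
  nlinarith

lemma dd_inj (hk : 1 ≤ k) : Function.Injective fun j : Fin k => (qq k j : ℚ) ^ 2 := by
  intro a b h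
  have h1 : (qq k a : ℚ) = qq k b :=
    (pow_left_inj₀ (by positivity) (by positivity) two_ne_zero).1 h
  have h2 : qq k a = qq k b := by exact_mod_cast h1
  exact Fin.ext (Nat.pow_right_injective (by omega : 2 ≤ 2 * k + 1) h2)

theorem weightsQ (hk : 1 ≤ k) (e : ℕ) (he : 1 ≤ e) :
    ∃ a b : Fin k → ℚ, (∀ i, 0 < a i) ∧ ∀ j, e ≤ j → j ≤ 2 * k - 1 + e →
      ∑ i, (b i * j * ((qq k i : ℚ) ^ 2) ^ (j - 1) - a i * ((qq k i : ℚ) ^ 2) ^ j)
        = if j = 2 * k - 1 + e then 1 else 0 := by
  set d : Fin k → ℚ := fun j => (qq k j : ℚ) ^ 2 with hd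
  have hinj : Function.Injective d := dd_inj hk
  have hpos : ∀ i, 0 < d i := fun i => by have := qq_pos k i; simp only [hd]; positivity
  refine ⟨fun i => (e / d i + 2 * sig d i) / (d i ^ e * ((oth d i).eval (d i)) ^ 2),
    fun i => 1 / (d i ^ e * ((oth d i).eval (d i)) ^ 2), fun i => ?_, fun j hj hj' => ?_⟩
  · have h1 := sig_pos hk i
    have h2 := oth_eval_ne d hinj i
    have h3 := hpos i
    have h4 : 1 / d i ≤ e / d i := by gcongr; exact_mod_cast he
    refine div_pos (by simp only [hd] at *; linarith) (by positivity)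
  · obtain ⟨m, rfl⟩ := Nat.exists_eq_add_of_le hj
    have hH := hermite hk d hinj (X ^ m) (by rw [natDegree_X_pow]; omega)
    rw [coeff_X_pow] at hH
    have : (if e + m = 2 * k - 1 + e then (1 : ℚ) else 0) = if 2 * k - 1 = m then 1 else 0 := by
      congr 1; apply propext; omega
    rw [this, ← hH]
    refine sum_congr rfl fun i _ => ?_
    have h2 := oth_eval_ne d hinj i
    have h3 := (hpos i).ne'
    change 1 / (d i ^ e * ((oth d i).eval (d i)) ^ 2) * ((e + m : ℕ) : ℚ) * d i ^ (e + m - 1)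
      - (e / d i + 2 * sig d i) / (d i ^ e * ((oth d i).eval (d i)) ^ 2) * d i ^ (e + m) = _
    obtain ⟨e', rfl⟩ := Nat.exists_eq_add_of_le' he
    rw [show e' + 1 + m - 1 = e' + m by omega]
    rcases m with _ | m
    · simp; field_simp; ring
    · simp only [derivative_X_pow, eval_mul, eval_C, eval_pow, eval_X, Nat.add_sub_cancel]
      push_cast
      field_simp
      ring

lemma clear_den {ι : Type*} [Fintype ι] (a : ι → ℚ) :
    ∃ M : ℕ, 0 < M ∧ ∀ i, ∃ z : ℤ, (z : ℚ) = M * a i := by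
  classical
  refine ⟨∏ i, (a i).den, prod_pos fun i _ => (a i).den_pos, fun i => ?_⟩
  refine ⟨(∏ j ∈ univ.erase i, (a j).den : ℕ) * (a i).num, ?_⟩
  rw [← mul_prod_erase univ (fun i => (a i).den) (mem_univ i)]
  push_cast
  rw [mul_comm ((a i).den : ℚ), mul_assoc, Rat.den_mul_eq_num]

theorem weightsZ (hk : 1 ≤ k) (e : ℕ) (he : 1 ≤ e) :
    ∃ (A B : Fin k → ℤ) (M : ℝ), 0 < M ∧ (∀ i, 0 < A i) ∧ ∀ j, e ≤ j → j ≤ 2 * k - 1 + e →
      ∑ i, ((B i : ℝ) * j * ((qq k i : ℝ) ^ 2) ^ (j - 1) - A i * ((qq k i : ℝ) ^ 2) ^ j)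
        = if j = 2 * k - 1 + e then M else 0 := by
  obtain ⟨a, b, ha, h⟩ := weightsQ hk e he
  obtain ⟨M, hM, hz⟩ := clear_den (Sum.elim a b)
  choose z hz using hz
  refine ⟨fun i => z (.inl i), fun i => z (.inr i), M, by exact_mod_cast hM, fun i => ?_,
    fun j hj hj' => ?_⟩
  · have : (0 : ℚ) < z (.inl i) := by
      rw [hz]; have := ha i; simp only [Sum.elim_inl]; positivity
    exact_mod_cast this
  · have h1 : ∑ i, ((z (.inr i) : ℚ) * j * ((qq k i : ℚ) ^ 2) ^ (j - 1)
        - z (.inl i) * ((qq k i : ℚ) ^ 2) ^ j) = if j = 2 * k - 1 + e then (M : ℚ) else 0 := by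
      have := congrArg (fun t => (M : ℚ) * t) (h j hj hj')
      simp only [mul_sum, mul_ite, mul_one, mul_zero] at this
      rw [← this]
      refine sum_congr rfl fun i _ => ?_
      rw [hz, hz]; simp only [Sum.elim_inl, Sum.elim_inr]; ring
    have h2 := congrArg (fun t : ℚ => (t : ℝ)) h1
    split_ifs at h2 ⊢ <;> exact_mod_cast h2

end NI
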