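import Pool.Agent.MP_c00c90_lc.NI.Tour

namespace NI

open Finset Filter

lemma scale (r D : ℕ) (hr : r ≠ 0) (hD : 0 < D) {P : ℕ → Prop} (h : ∀ᶠ X in atTop, P X) :
    ∀ᶠ G : ℕ in atTop, ∃ X, P X ∧ 1 ≤ X ∧ D * X ^ r ≤ G ∧ G ≤ D * 2 ^ r * X ^ r := by
  obtain ⟨X0, hX0⟩ := eventually_atTop.1 (h.and (eventually_ge_atTop 1))
  refine eventually_atTop.2 ⟨D * X0 ^ r, fun G hG => ?_⟩
  have hex : ∃ x, G < D * (x + 1) ^ r :=
    ⟨G, lt_of_lt_of_le (Nat.lt_succ_self G) ((Nat.le_self_pow hr _).trans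
      (Nat.le_mul_of_pos_left _ hD))⟩
  have h1 := Nat.find_spec hex
  have h2 : X0 ≤ Nat.find hex := by
    by_contra hlt
    have : D * (Nat.find hex + 1) ^ r ≤ D * X0 ^ r := by gcongr; omega
    omega
  obtain ⟨h3, h4⟩ := hX0 _ h2
  refine ⟨Nat.find hex, h3, h4, ?_, ?_⟩
  · have := Nat.find_min hex (m := Nat.find hex - 1) (by omega)
    rw [Nat.sub_add_cancel h4] at this
    omega
  · refine h1.le.trans ?_
    rw [mul_assoc, ← mul_pow]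
    gcongr
    omega

lemma to_rpow {t C : ℝ} {E r D X G : ℕ} (hr : r ≠ 0) (ht : 0 < t) (h : t * (X : ℝ) ^ E ≤ C)
    (hG0 : 0 < G) (hG : G ≤ D * X ^ r) :
    t ≤ C * (D : ℝ) ^ ((E : ℝ) / r) / (G : ℝ) ^ ((E : ℝ) / r) := by
  have hG' : (0 : ℝ) < G := by exact_mod_cast hG0
  have h1 : (G : ℝ) ^ ((E : ℝ) / r) ≤ (D : ℝ) ^ ((E : ℝ) / r) * (X : ℝ) ^ E := by
    calc (G : ℝ) ^ ((E : ℝ) / r) ≤ ((D : ℝ) * (X : ℝ) ^ r) ^ ((E : ℝ) / r) :=
          Real.rpow_le_rpow hG'.le (by exact_mod_cast hG) (by positivity)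
      _ = _ := by
          rw [Real.mul_rpow (by positivity) (by positivity), ← Real.rpow_natCast (X : ℝ) r,
            ← Real.rpow_mul (by positivity), mul_div_cancel₀ _ (by exact_mod_cast hr),
            Real.rpow_natCast]
  rw [le_div_iff₀ (by positivity)]
  calc t * (G : ℝ) ^ ((E : ℝ) / r) ≤ t * ((D : ℝ) ^ ((E : ℝ) / r) * (X : ℝ) ^ E) := by gcongr
    _ = t * (X : ℝ) ^ E * (D : ℝ) ^ ((E : ℝ) / r) := by ring
    _ ≤ _ := by gcongr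

lemma poly_grid (k : ℕ) (hk : 1 ≤ k) (w q : ℕ → ℕ) (X W G : ℕ) (hX : 1 ≤ X)
    (hw : ∀ j < k, 0 < w j ∧ w j ≤ W) (hq : ∀ j < k, 0 < q j ∧ q j ≤ X) (hG : k * (W * X) ≤ G) :
    InGrid G fun i : Fin (k + 2) => poly k w q X i := by
  have hmono : ∀ a b, a < b → b ≤ k →
      ∑ j ∈ range a, (w j * X : ℕ) < ∑ j ∈ range b, (w j * X : ℕ) := fun a b hab hb =>
    sum_lt_sum_of_subset (range_subset_range.2 hab.le) (i := a) (mem_range.2 hab) (by simp)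
      (Nat.mul_pos (hw a (by omega)).1 hX) fun _ _ _ => Nat.zero_le _
  have hy : 0 < ∑ j ∈ range k, (w j * q j : ℕ) :=
    sum_pos (fun j hj => Nat.mul_pos (hw j (mem_range.1 hj)).1 (hq j (mem_range.1 hj)).1)
      (nonempty_range_iff.2 (by omega))
  have hne : ∀ a b, a < b → b < k + 2 → poly k w q X a ≠ poly k w q X b := by
    intro a b hab hb h
    rcases (show b ≤ k ∨ b = k + 1 by omega) with h1 | rfl
    · have := congrArg Prod.fst h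
      simp only [poly, if_pos h1, if_pos (show a ≤ k by omega), ← Nat.cast_sum,
        Nat.cast_inj] at this
      exact (hmono a b hab h1).ne this
    · rcases Nat.eq_zero_or_pos a with rfl | ha
      · have := congrArg Prod.snd h
        simp only [poly, if_pos (Nat.zero_le _), if_pos le_rfl, Nat.zero_min, range_zero, sum_empty,
          min_eq_right (Nat.le_succ k), ← Nat.cast_sum] at this
        omega
      · have := congrArg Prod.fst h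
        simp only [poly, if_pos (show a ≤ k by omega), if_neg (Nat.not_succ_le_self k),
          ← Nat.cast_sum] at this
        have h2 := hmono 0 a ha (by omega)
        omega
  have hb : ∀ (m : ℕ) (f : ℕ → ℕ), m ≤ k → (∀ j < k, f j ≤ W * X) → ∑ j ∈ range m, f j ≤ G :=
    fun m f hm hf => by
      refine (sum_le_card_nsmul _ _ (W * X) fun j hj => hf j ?_).trans ?_
      · have := mem_range.1 hj; omega
      · rw [card_range, smul_eq_mul]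
        exact (Nat.mul_le_mul_right _ hm).trans hG
  refine ⟨fun a b h => ?_, fun i => ⟨(poly_nonneg k w q X i).1, ?_, (poly_nonneg k w q X i).2, ?_⟩⟩
  · rcases lt_trichotomy (a : ℕ) b with h1 | h1 | h1
    · exact absurd h (hne a b h1 b.2)
    · exact Fin.ext h1
    · exact absurd h.symm (hne b a h1 a.2)
  · simp only [poly]
    split_ifs with h
    · exact_mod_cast hb i _ h fun j hj => Nat.mul_le_mul_right _ (hw j hj).2
    · positivity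
  · simp only [poly]
    split_ifs with h
    · exact_mod_cast hb _ _ (min_le_right _ _) fun j hj => Nat.mul_le_mul (hw j hj).2 (hq j hj).2
    · positivity

theorem tours (k : ℕ) (hk : 1 ≤ k) (e : ℕ) (he : e = 1 ∨ e = 2) :
    ∃ C : ℝ, ∀ᶠ G : ℕ in atTop, ∃ (c : Fin (k + 2) → ℤ × ℤ) (L : ℤ) (v : ℝ),
      InGrid G c ∧ IsOpt c v ∧ 0 < (-1 : ℝ) ^ e * (v - L) ∧
      (-1 : ℝ) ^ e * (v - L) ≤ C / (G : ℝ) ^ ((4 * k + 2 * e - 5 : ℝ) / 3) := by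
  obtain ⟨C, hC, h⟩ := core k hk e he
  have hE : ((4 * k + 2 * e - 5 : ℕ) : ℝ) = 4 * k + 2 * e - 5 := by
    rw [Nat.cast_sub (by omega)]; push_cast; ring
  refine ⟨C * ((k * C * 2 ^ 3 : ℕ) : ℝ) ^ ((4 * k + 2 * e - 5 : ℝ) / 3), ?_⟩
  filter_upwards [scale 3 (k * C) (by omega) (by positivity)
    (h.and (eventually_ge_atTop (qq k k))), eventually_gt_atTop 0] with G hG hG0
  obtain ⟨X, ⟨⟨w, L, hw, h1, h2⟩, hq⟩, hX, h3, h4⟩ := hG
  set w' : ℕ → ℕ := fun j => if h : j < k then w ⟨j, h⟩ else 0 with hw'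
  have hs : ∑ j ∈ range k, (w' j : ℝ) * √((X : ℝ) ^ 2 + (qq k j : ℝ) ^ 2)
      = ∑ i : Fin k, (w i : ℝ) * √((X : ℝ) ^ 2 + (qq k i : ℝ) ^ 2) := by
    rw [sum_range]
    exact sum_congr rfl fun i _ => by simp [hw']
  have ho := poly_opt k w' (qq k) X (qq_mono k)
  rw [hs] at ho
  refine ⟨_, L + ((poly k w' (qq k) X k).1 + (poly k w' (qq k) X k).2), _,
    poly_grid k hk w' (qq k) X (C * X ^ 2) G hX (fun j hj => by simpa [hw', hj] using hw ⟨j, hj⟩)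
      (fun j hj => ⟨qq_pos k j, (qq_mono k hj.le).trans hq⟩) (by nlinarith), ho, ?_, ?_⟩
  · rw [Int.cast_add L, add_sub_add_right_eq_sub]; exact h1
  · rw [Int.cast_add L, add_sub_add_right_eq_sub]
    have := to_rpow (r := 3) (by omega) h1 h2 hG0 h4
    rwa [hE, Nat.cast_ofNat] at this

theorem roots (k : ℕ) (hk : 1 ≤ k) :
    ∃ C : ℝ, ∀ᶠ N : ℕ in atTop, ∃ (a : Fin k → ℕ) (L : ℤ), (∀ i, a i ≤ N) ∧
      (L : ℝ) < ∑ i, √(a i : ℝ) ∧ ∑ i, √(a i : ℝ) ≤ L + C / (N : ℝ) ^ ((4 * k - 1 : ℝ) / 6) := by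
  obtain ⟨C, hC, h⟩ := core k hk 2 (.inr rfl)
  have hE : ((4 * k + 2 * 2 - 5 : ℕ) : ℝ) = 4 * k - 1 := by
    rw [Nat.cast_sub (by omega)]; push_cast; ring
  refine ⟨C * ((2 * C ^ 2 * 2 ^ 6 : ℕ) : ℝ) ^ ((4 * k - 1 : ℝ) / 6), ?_⟩
  filter_upwards [scale 6 (2 * C ^ 2) (by omega) (by positivity)
    (h.and (eventually_ge_atTop (qq k k))), eventually_gt_atTop 0] with N hN hN0
  obtain ⟨X, ⟨⟨w, L, hw, h1, h2⟩, hq⟩, hX, h3, h4⟩ := hN
  have hs : ∑ i : Fin k, √((w i ^ 2 * (X ^ 2 + qq k i ^ 2) : ℕ) : ℝ)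
      = ∑ i : Fin k, (w i : ℝ) * √((X : ℝ) ^ 2 + (qq k i : ℝ) ^ 2) :=
    sum_congr rfl fun i _ => by
      push_cast
      rw [Real.sqrt_mul (by positivity), Real.sqrt_sq (by positivity)]
  have h5 := to_rpow (r := 6) (by omega) h1 h2 hN0 h4
  rw [hE, Nat.cast_ofNat] at h5
  simp only [even_two, Even.neg_pow, one_pow, one_mul] at h1 h5
  refine ⟨fun i => w i ^ 2 * (X ^ 2 + qq k i ^ 2), L, fun i => ?_, ?_, ?_⟩
  · have a1 := (hw i).2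
    have a2 : qq k i ≤ X := (qq_mono k i.2.le).trans hq
    calc w i ^ 2 * (X ^ 2 + qq k i ^ 2) ≤ (C * X ^ 2) ^ 2 * (X ^ 2 + X ^ 2) := by gcongr
      _ = 2 * C ^ 2 * X ^ 6 := by ring
      _ ≤ N := h3
  · rw [hs]; linarith
  · rw [hs]; linarith

theorem main (k : ℕ) (hk : 1 ≤ k) : ∃ (C : ℝ) (N₀ : ℕ), ∀ N ≥ N₀,
    (∃ (c : Fin (k + 2) → ℤ × ℤ) (L : ℤ) (v : ℝ), InGrid N c ∧ IsOpt c v ∧
      L - C / (N : ℝ) ^ ((4 * k - 3 : ℝ) / 3) ≤ v ∧ v < L) ∧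
    (∃ (c : Fin (k + 2) → ℤ × ℤ) (L : ℤ) (v : ℝ), InGrid N c ∧ IsOpt c v ∧
      L < v ∧ v ≤ L + C / (N : ℝ) ^ ((4 * k - 1 : ℝ) / 3)) ∧
    (∃ (a : Fin k → ℕ) (L : ℤ), (∀ i, a i ≤ N) ∧
      (L : ℝ) < ∑ i, √(a i : ℝ) ∧ ∑ i, √(a i : ℝ) ≤ L + C / (N : ℝ) ^ ((4 * k - 1 : ℝ) / 6)) := by
  obtain ⟨C1, h1⟩ := tours k hk 1 (.inl rfl)
  obtain ⟨C2, h2⟩ := tours k hk 2 (.inr rfl)
  obtain ⟨C3, h3⟩ := roots k hk
  obtain ⟨N0, h⟩ := eventually_atTop.1 (h1.and (h2.and h3))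
  have hm : ∀ (C t : ℝ) (N : ℕ), C ≤ max C1 (max C2 C3) →
      C / (N : ℝ) ^ t ≤ max C1 (max C2 C3) / (N : ℝ) ^ t := fun C t N hC =>
    div_le_div_of_nonneg_right hC (by positivity)
  refine ⟨max C1 (max C2 C3), N0, fun N hN => ?_⟩
  obtain ⟨⟨c, L, v, a1, a2, a3, a4⟩, ⟨c', L', v', b1, b2, b3, b4⟩, a, L'', d1, d2, d3⟩ := h N hN
  refine ⟨⟨c, L, v, a1, a2, ?_, ?_⟩, ⟨c', L', v', b1, b2, ?_, ?_⟩, a, L'', d1, d2, ?_⟩
  · rw [show (4 * k + 2 * (1 : ℕ) - 5 : ℝ) = 4 * k - 3 by push_cast; ring] at a4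
    have := hm C1 ((4 * k - 3 : ℝ) / 3) N (le_max_left _ _)
    linarith
  · linarith
  · linarith
  · rw [show (4 * k + 2 * (2 : ℕ) - 5 : ℝ) = 4 * k - 1 by push_cast; ring] at b4
    have := hm C2 ((4 * k - 1 : ℝ) / 3) N ((le_max_left _ _).trans (le_max_right _ _))
    linarith
  · have := hm C3 ((4 * k - 1 : ℝ) / 6) N ((le_max_right _ _).trans (le_max_right _ _))
    linarith

end NI
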