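import Pool.Agent.MP_c00c90_lc.NI.Core

/-! Tours through integer points; the boundary order of a convex chain is optimal. -/

namespace NI

open Finset Real

/-- Euclidean length of the closed tour that visits the cities `c` in the order `p`. -/
noncomputable def tourLen {n : ℕ} (c : Fin n → ℤ × ℤ) (p : Equiv.Perm (Fin n)) : ℝ :=
  ∑ i, √((((c (p i)).1 : ℝ) - (c (p (finRotate n i))).1) ^ 2
    + (((c (p i)).2 : ℝ) - (c (p (finRotate n i))).2) ^ 2)

/-- `v` is the length of a shortest tour. -/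
def IsOpt {n : ℕ} (c : Fin n → ℤ × ℤ) (v : ℝ) : Prop := IsLeast (Set.range (tourLen c)) v

/-- distinct cities with coordinates in `[0, G]`. -/
def InGrid {n : ℕ} (G : ℕ) (c : Fin n → ℤ × ℤ) : Prop :=
  Function.Injective c ∧ ∀ i, 0 ≤ (c i).1 ∧ (c i).1 ≤ G ∧ 0 ≤ (c i).2 ∧ (c i).2 ≤ G

lemma tv_lower (G : ℕ → ℝ) (N : ℕ) (hN : G N = G 0) {a b : ℕ} (ha : a ≤ N) (hb : b ≤ N) :
    2 * (G b - G a) ≤ ∑ m ∈ range N, |G m - G (m + 1)| := by
  have main : ∀ a b : ℕ, a ≤ b → b ≤ N →
      2 * dist (G a) (G b) ≤ ∑ m ∈ range N, |G m - G (m + 1)| := by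
    intro a b hab hb
    have h1 := dist_le_Ico_sum_dist G (Nat.zero_le a)
    have h2 := dist_le_Ico_sum_dist G hab
    have h3 := dist_le_Ico_sum_dist G hb
    have h4 := dist_triangle (G a) (G 0) (G b)
    rw [hN] at h3
    rw [range_eq_Ico, ← sum_Ico_consecutive _ (Nat.zero_le b) hb,
      ← sum_Ico_consecutive _ (Nat.zero_le a) hab]
    simp only [← Real.dist_eq]
    rw [dist_comm (G a) (G 0), dist_comm (G 0) (G b)] at h4
    linarith
  rcases le_total a b with h | h
  · have := main a b h hb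
    rw [Real.dist_eq] at this
    linarith [neg_abs_le (G a - G b)]
  · have := main b a h ha
    rw [Real.dist_eq] at this
    linarith [le_abs_self (G b - G a)]

lemma tv_upper (G : ℕ → ℝ) (N : ℕ) (hN : G N = G 0) {a b : ℕ} (hab : a ≤ b) (hb : b ≤ N)
    (h1 : ∀ m < a, G (m + 1) ≤ G m) (h2 : ∀ m, a ≤ m → m < b → G m ≤ G (m + 1))
    (h3 : ∀ m, b ≤ m → m < N → G (m + 1) ≤ G m) :
    ∑ m ∈ range N, |G m - G (m + 1)| = 2 * (G b - G a) := by
  rw [range_eq_Ico, ← sum_Ico_consecutive _ (Nat.zero_le b) hb,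
    ← sum_Ico_consecutive _ (Nat.zero_le a) hab]
  have e1 : ∑ m ∈ Ico 0 a, |G m - G (m + 1)| = -∑ m ∈ Ico 0 a, (G (m + 1) - G m) := by
    rw [← sum_neg_distrib]
    exact sum_congr rfl fun m hm => by
      rw [abs_of_nonneg (sub_nonneg.2 (h1 m (mem_Ico.1 hm).2))]; ring
  have e2 : ∑ m ∈ Ico a b, |G m - G (m + 1)| = ∑ m ∈ Ico a b, (G (m + 1) - G m) :=
    sum_congr rfl fun m hm => by
      rw [abs_of_nonpos (sub_nonpos.2 (h2 m (mem_Ico.1 hm).1 (mem_Ico.1 hm).2))]; ring
  have e3 : ∑ m ∈ Ico b N, |G m - G (m + 1)| = -∑ m ∈ Ico b N, (G (m + 1) - G m) := by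
    rw [← sum_neg_distrib]
    exact sum_congr rfl fun m hm => by
      rw [abs_of_nonneg (sub_nonneg.2 (h3 m (mem_Ico.1 hm).1 (mem_Ico.1 hm).2))]; ring
  rw [e1, e2, e3, sum_Ico_sub G (Nat.zero_le a), sum_Ico_sub G hab, sum_Ico_sub G hb, hN]
  ring

lemma sum_rot {n : ℕ} (F : Fin (n + 1) → Fin (n + 1) → ℝ) :
    ∑ i, F i (finRotate (n + 1) i)
      = ∑ m ∈ range (n + 1), F (Fin.ofNat (n + 1) m) (Fin.ofNat (n + 1) (m + 1)) := by
  rw [sum_range]
  refine sum_congr rfl fun i _ => ?_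
  congr 1
  · simp
  · rw [finRotate_apply]; ext; simp [Fin.val_add]

lemma cyc_lower {n : ℕ} (g : Fin (n + 1) → ℝ) (a b : Fin (n + 1)) :
    2 * (g b - g a) ≤ ∑ i, |g i - g (finRotate (n + 1) i)| := by
  rw [sum_rot fun i j => |g i - g j|]
  have := tv_lower (fun m => g (Fin.ofNat (n + 1) m)) (n + 1) (by congr 1; ext; simp)
    a.2.le b.2.le
  simpa using this

lemma crofton (x y : ℝ) : ∫ t in (0 : ℝ)..2 * π, |x * cos t + y * sin t|
    = √(x ^ 2 + y ^ 2) * ∫ t in (0 : ℝ)..2 * π, |cos t| := by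
  set z : ℂ := ⟨x, y⟩ with hz
  have hr : ‖z‖ = √(x ^ 2 + y ^ 2) := by
    rw [Complex.norm_def, Complex.normSq_apply]; simp [hz, sq]
  have hx : x = ‖z‖ * cos z.arg := (Complex.norm_mul_cos_arg z).symm
  have hy : y = ‖z‖ * sin z.arg := (Complex.norm_mul_sin_arg z).symm
  have e : ∀ t, |x * cos t + y * sin t| = ‖z‖ * |cos (t - z.arg)| := fun t => by
    rw [← abs_of_nonneg (norm_nonneg z), ← abs_mul, cos_sub]
    congr 1
    linear_combination cos t * hx + sin t * hy
  simp only [e]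
  rw [intervalIntegral.integral_const_mul, hr,
    intervalIntegral.integral_comp_sub_right (fun t => |cos t|)]
  have hp : Function.Periodic (fun t => |cos t|) (2 * π) := fun t => by simp
  have := hp.intervalIntegral_add_eq (0 - z.arg) 0
  rw [zero_add, show 0 - z.arg + 2 * π = 2 * π - z.arg by ring] at this
  rw [this]

lemma kappa_pos : 0 < ∫ t in (0 : ℝ)..2 * π, |cos t| := by
  have h : ∫ t in (0 : ℝ)..2 * π, cos t ^ 2 ≤ ∫ t in (0 : ℝ)..2 * π, |cos t| := by
    refine intervalIntegral.integral_mono_on (by positivity)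
      (Continuous.intervalIntegrable (by fun_prop) _ _)
      (Continuous.intervalIntegrable (by fun_prop) _ _) fun t _ => ?_
    rw [← sq_abs]
    nlinarith [abs_cos_le_one t, abs_nonneg (cos t)]
  rw [integral_cos_sq] at h
  simp at h
  linarith [pi_pos]

lemma len_le {ι : Type*} [Fintype ι] (x y x' y' : ι → ℝ)
    (h : ∀ c s : ℝ, ∑ i, |x i * c + y i * s| ≤ ∑ i, |x' i * c + y' i * s|) :
    ∑ i, √(x i ^ 2 + y i ^ 2) ≤ ∑ i, √(x' i ^ 2 + y' i ^ 2) := by
  refine le_of_mul_le_mul_right ?_ kappa_pos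
  simp only [sum_mul, ← crofton]
  rw [← intervalIntegral.integral_finsetSum fun i _ =>
      Continuous.intervalIntegrable (by fun_prop) _ _,
    ← intervalIntegral.integral_finsetSum fun i _ =>
      Continuous.intervalIntegrable (by fun_prop) _ _]
  exact intervalIntegral.integral_mono_on (by positivity)
    (Continuous.intervalIntegrable (by fun_prop) _ _)
    (Continuous.intervalIntegrable (by fun_prop) _ _) fun t _ => h _ _

lemma opt_of_unimodal {n : ℕ} (c : Fin (n + 1) → ℤ × ℤ)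
    (h : ∀ u s : ℝ, 0 ≤ s → ∃ a b : Fin (n + 1),
      ∑ i, |(((c i).1 : ℝ) * u + (c i).2 * s)
        - ((c (finRotate (n + 1) i)).1 * u + (c (finRotate (n + 1) i)).2 * s)|
        = 2 * ((((c b).1 : ℝ) * u + (c b).2 * s) - ((c a).1 * u + (c a).2 * s))) :
    IsOpt c (tourLen c 1) := by
  refine ⟨⟨1, rfl⟩, ?_⟩
  rintro _ ⟨p, rfl⟩
  refine len_le _ _ _ _ ?_
  have main : ∀ u s : ℝ, 0 ≤ s →
      ∑ i, |(((c i).1 : ℝ) - (c (finRotate (n + 1) i)).1) * u
        + (((c i).2 : ℝ) - (c (finRotate (n + 1) i)).2) * s|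
      ≤ ∑ i, |(((c (p i)).1 : ℝ) - (c (p (finRotate (n + 1) i))).1) * u
        + (((c (p i)).2 : ℝ) - (c (p (finRotate (n + 1) i))).2) * s| := by
    intro u s hs
    obtain ⟨a, b, hab⟩ := h u s hs
    have h2 := cyc_lower (fun i => ((c (p i)).1 : ℝ) * u + (c (p i)).2 * s) (p.symm a) (p.symm b)
    simp only [Equiv.apply_symm_apply] at h2
    rw [← hab] at h2
    convert h2 using 3 <;> ring
  intro u s
  rcases le_total 0 s with hs | hs
  · simpa using main u s hs
  · have := main (-u) (-s) (by linarith)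
    simp only [mul_neg, ← neg_add, abs_neg] at this
    simpa using this

/-- the convex polygon: a chain of edges `w j * (X, q j)`, closed by one corner -/
def poly (k : ℕ) (w q : ℕ → ℕ) (X : ℕ) (m : ℕ) : ℤ × ℤ :=
  (if m ≤ k then ∑ j ∈ range m, (w j * X : ℕ) else 0,
   if m ≤ k + 1 then ∑ j ∈ range (min m k), (w j * q j : ℕ) else 0)

lemma poly_ofNat (k : ℕ) (w q : ℕ → ℕ) (X : ℕ) {m : ℕ} (hm : m ≤ k + 2) :
    poly k w q X (Fin.ofNat (k + 2) m) = poly k w q X m := by
  rcases hm.lt_or_eq with h | rfl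
  · simp [Nat.mod_eq_of_lt h]
  · simp [poly]

lemma poly_step (k : ℕ) (w q : ℕ → ℕ) (X : ℕ) {m : ℕ} (hm : m < k) :
    ((poly k w q X (m + 1)).1 : ℝ) = (poly k w q X m).1 + w m * X ∧
    ((poly k w q X (m + 1)).2 : ℝ) = (poly k w q X m).2 + w m * q m := by
  simp only [poly, if_pos (show m + 1 ≤ k by omega), if_pos hm.le,
    if_pos (show m + 1 ≤ k + 1 by omega), if_pos (show m ≤ k + 1 by omega),
    min_eq_left (show m + 1 ≤ k by omega), min_eq_left hm.le, sum_range_succ]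
  push_cast
  exact ⟨rfl, rfl⟩

lemma poly_k (k : ℕ) (w q : ℕ → ℕ) (X : ℕ) :
    (poly k w q X (k + 1)).1 = 0 ∧ (poly k w q X (k + 1)).2 = (poly k w q X k).2 ∧
    (poly k w q X (k + 1 + 1)).1 = 0 ∧ (poly k w q X (k + 1 + 1)).2 = 0 := by
  simp [poly]

lemma poly_nonneg (k : ℕ) (w q : ℕ → ℕ) (X m : ℕ) :
    0 ≤ (poly k w q X m).1 ∧ 0 ≤ (poly k w q X m).2 := by
  constructor <;> simp only [poly] <;> split_ifs <;> positivity

theorem poly_opt (k : ℕ) (w q : ℕ → ℕ) (X : ℕ) (hq : Monotone q) :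
    IsOpt (fun i : Fin (k + 2) => poly k w q X i)
      (∑ j ∈ range k, (w j : ℝ) * √((X : ℝ) ^ 2 + (q j : ℝ) ^ 2)
        + (((poly k w q X k).1 + (poly k w q X k).2 : ℤ) : ℝ)) := by
  obtain ⟨k1, k2, k3, k4⟩ := poly_k k w q X
  have hA : (0 : ℝ) ≤ (poly k w q X k).1 := by exact_mod_cast (poly_nonneg k w q X k).1
  have hB : (0 : ℝ) ≤ (poly k w q X k).2 := by exact_mod_cast (poly_nonneg k w q X k).2
  have hlen : tourLen (fun i : Fin (k + 2) => poly k w q X i) 1
      = ∑ j ∈ range k, (w j : ℝ) * √((X : ℝ) ^ 2 + (q j : ℝ) ^ 2)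
        + (((poly k w q X k).1 + (poly k w q X k).2 : ℤ) : ℝ) := by
    unfold tourLen
    simp only [Equiv.Perm.coe_one, id]
    rw [sum_rot fun i j : Fin (k + 2) => √((((poly k w q X i).1 : ℝ) - (poly k w q X j).1) ^ 2
      + (((poly k w q X i).2 : ℝ) - (poly k w q X j).2) ^ 2)]
    rw [sum_congr rfl fun m hm => by
      rw [poly_ofNat k w q X (m := m) (by have := mem_range.1 hm; omega),
        poly_ofNat k w q X (m := m + 1) (by have := mem_range.1 hm; omega)]]
    rw [sum_range_succ, sum_range_succ, k1, k2, k3, k4, add_assoc]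
    congr 1
    · refine sum_congr rfl fun m hm => ?_
      obtain ⟨s1, s2⟩ := poly_step k w q X (mem_range.1 hm)
      rw [s1, s2, ← Real.sqrt_sq (Nat.cast_nonneg (w m) : (0 : ℝ) ≤ _),
        ← Real.sqrt_mul (by positivity), Real.sqrt_sq (Nat.cast_nonneg _)]
      congr 1; ring
    · simp [Real.sqrt_sq hA, Real.sqrt_sq hB]
  rw [← hlen]
  refine opt_of_unimodal _ fun u s hs => ?_
  set G : ℕ → ℝ := fun m => ((poly k w q X m).1 : ℝ) * u + (poly k w q X m).2 * s with hG
  have hsum : ∑ i : Fin (k + 1 + 1), |(((poly k w q X i).1 : ℝ) * u + (poly k w q X i).2 * s)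
        - ((poly k w q X (finRotate (k + 1 + 1) i)).1 * u
          + (poly k w q X (finRotate (k + 1 + 1) i)).2 * s)|
      = ∑ m ∈ range (k + 2), |G m - G (m + 1)| := by
    rw [sum_rot fun i j : Fin (k + 2) => |(((poly k w q X i).1 : ℝ) * u + (poly k w q X i).2 * s)
        - ((poly k w q X j).1 * u + (poly k w q X j).2 * s)|]
    exact sum_congr rfl fun m hm => by
      rw [poly_ofNat k w q X (m := m) (by have := mem_range.1 hm; omega),
        poly_ofNat k w q X (m := m + 1) (by have := mem_range.1 hm; omega)]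
  have hN : G (k + 2) = G 0 := by simp [hG, poly]
  have hstep : ∀ m < k, G (m + 1) = G m + w m * (X * u + q m * s) := fun m hm => by
    obtain ⟨s1, s2⟩ := poly_step k w q X hm
    simp only [hG, s1, s2]; ring
  have hGk : G (k + 1) = G k - (poly k w q X k).1 * u := by simp only [hG, k1, k2]; simp
  have hGk1 : G (k + 1 + 1) ≤ G (k + 1) := by
    simp only [hG, k1, k2, k3, k4]; simp; positivity
  rw [hsum]
  rcases le_total 0 u with hu | hu
  · refine ⟨⟨0, by omega⟩, ⟨k, by omega⟩, tv_upper G (k + 2) hN (a := 0) (b := k)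
      (Nat.zero_le k) (by omega)
      (fun m hm => absurd hm (Nat.not_lt_zero m)) (fun m _ hm => ?_) fun m h1 h2 => ?_⟩
    · rw [hstep m hm]; have : (0 : ℝ) ≤ w m * (X * u + q m * s) := by positivity
      linarith
    · obtain rfl | rfl : m = k ∨ m = k + 1 := by omega
      · rw [hGk]; nlinarith
      · exact hGk1
  · have hex : ∃ m, m = k ∨ 0 ≤ (X : ℝ) * u + q m * s := ⟨k, .inl rfl⟩
    classical
    have ha : Nat.find hex ≤ k := Nat.find_min' hex (.inl rfl)
    refine ⟨⟨Nat.find hex, by omega⟩, ⟨k + 1, by omega⟩, tv_upper G (k + 2) hN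
      (a := Nat.find hex) (b := k + 1) (by omega) (by omega)
      (fun m hm => ?_) (fun m h1 h2 => ?_) fun m h1 h2 => ?_⟩
    · have := Nat.find_min hex hm
      push Not at this
      rw [hstep m (by omega)]
      nlinarith [Nat.cast_nonneg (α := ℝ) (w m), this.2]
    · rcases (show m < k ∨ m = k by omega) with h | rfl
      · rw [hstep m h]
        have h3 : 0 ≤ (X : ℝ) * u + q (Nat.find hex) * s :=
          (Nat.find_spec hex).resolve_left (by omega)
        have h4 : (q (Nat.find hex) : ℝ) ≤ q m := by exact_mod_cast hq h1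
        have h5 : 0 ≤ (X : ℝ) * u + q m * s := by nlinarith
        have : (0 : ℝ) ≤ w m * (X * u + q m * s) := by positivity
        linarith
      · rw [hGk]; nlinarith
    · obtain rfl : m = k + 1 := by omega
      exact hGk1

end NI
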